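import Pool.Agent.Helper54.SD.Odd
import Pool.Agent.Helper69.SD.Setup
import Pool.Agent.Helper69.SD.Nat

/-! # SD: a point of the generic fibre over an extension of odd degree gives a point of the base change
(Amer, Brumer, Springer) -/

set_option autoImplicit false
set_option linter.unusedVariables false
set_option linter.unusedSectionVars false

namespace Pool.Agent.Helper15.SD

open MvPolynomial Module Matrix QuadraticMap Pool.Agent.Helper16 Pool.Agent.Helper69.SD
  Pool.Agent.Helper54.SD

/-- the matrix of the polar form -/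
def pm {k : Type} [Field k] {n : ℕ} (Q : QuadraticForm k (Fin n → k)) : Matrix (Fin n) (Fin n) k :=
  Matrix.of fun i j => polar Q (Pi.single i 1) (Pi.single j 1)

theorem pm_symm {k : Type} [Field k] {n : ℕ} (Q : QuadraticForm k (Fin n → k)) : (pm Q).IsSymm := by
  ext i j
  exact polar_comm Q _ _

theorem polar_sum {k : Type} [Field k] {n : ℕ} (Q : QuadraticForm k (Fin n → k)) (z : Fin n → k) :
    ∑ i, ∑ j, polar Q (Pi.single i 1) (Pi.single j 1) * z i * z j = 2 * Q z := by
  have h1 : polarBilin Q z z = 2 * Q z := by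
    rw [polarBilin_apply_apply, polar_self]
    simp
  have h2 : z = ∑ i, z i • (Pi.single i 1 : Fin n → k) := by
    funext m
    rw [Finset.sum_apply, Finset.sum_eq_single m]
    · simp
    · intro b _ hb
      rw [Pi.smul_apply, Pi.single_eq_of_ne (Ne.symm hb), smul_zero]
    · intro h
      exact absurd (Finset.mem_univ m) h
  rw [← h1]
  conv_rhs => rw [h2]
  simp only [map_sum, LinearMap.sum_apply, map_smul, LinearMap.smul_apply, smul_eq_mul,
    polarBilin_apply_apply]
  rw [Finset.sum_comm]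
  refine Finset.sum_congr rfl fun i _ => ?_
  rw [Finset.mul_sum]
  refine Finset.sum_congr rfl fun j _ => ?_
  ring

theorem H_of_fibre (D : Dat) {R : Type} [CommRing R] [IsDomain R] [Algebra ℂ R] (t : Fin 2 → R)
    (x : Fin 6 → R) (h0 : D.cubic x = 0) (hq : D.Q x 0 ≠ 0) (h1 : D.Q x 1 = t 0 * D.Q x 0)
    (h2 : D.Q x 2 = t 1 * D.Q x 0) (i : Fin 2) : D.H t i (v5 x) = 0 := by
  have hC : ∑ i, tv t i * D.C x i = 0 := by
    have h3 := w_mul_cubic D x
    rw [h0, mul_zero] at h3
    have h4 : ∑ i, D.Q x i * D.C x i = D.Q x 0 * ∑ i, tv t i * D.C x i := by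
      simp only [Fin.sum_univ_three, h1, h2, tv]
      simp
      ring
    rw [h4] at h3
    exact (mul_eq_zero.1 h3.symm).resolve_left hq
  fin_cases i
  · change D.H1 t (v5 x) = 0
    rw [H1_eq, h1, h2]
    ring
  · change D.H2 t (v5 x) = 0
    rw [H2_eq, hC, h1]
    ring

theorem v5_ne (D : Dat) {R : Type} [CommRing R] [Algebra ℂ R] (x : Fin 6 → R)
    (hq : D.Q x 0 ≠ 0) : v5 x ≠ 0 := by
  intro h
  apply hq
  rw [Q_apply, h, QuadraticMap.map_zero]
  have h3 : x 4 = 0 := congrFun h 4
  rw [h3]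
  simp

theorem map_polar {R R' : Type} [CommRing R] [Algebra ℂ R] [CommRing R'] [Algebra ℂ R']
    (φ : R →ₐ[ℂ] R') (D : Dat) (t : Fin 2 → R) (i : Fin 2) (u v : Fin 5 → R) :
    φ (polar (D.H t i) u v) = polar (D.H (φ ∘ t) i) (φ ∘ u) (φ ∘ v) := by
  have h : ∀ u u' : Fin 5 → R, φ ∘ (u + u') = φ ∘ u + φ ∘ u' := by
    intro u u'
    funext j
    simp
  simp only [polar, map_sub, map_H, h]

/-- a point of the generic fibre over an extension of odd degree of `ℂ(T₁, T₂)` gives a common zero of the two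
quadrics of the fibre over `ℂ(T₁, T₂)` -/
theorem odd_fibre_point (D : Dat) {K' : Type} [Field K'] [Algebra (FractionRing P2) K']
    [Algebra ℂ K'] [IsScalarTower ℂ (FractionRing P2) K']
    (hodd : Odd (Module.finrank (FractionRing P2) K')) (x : Fin 6 → K') (h0 : D.cubic x = 0)
    (hq : D.Q x 0 ≠ 0)
    (h1 : D.Q x 1 = algebraMap (FractionRing P2) K' (algebraMap P2 _ (X 0)) * D.Q x 0)
    (h2 : D.Q x 2 = algebraMap (FractionRing P2) K' (algebraMap P2 _ (X 1)) * D.Q x 0) :
    ∃ s : Fin 5 → P2, s ≠ 0 ∧ ∀ i, D.H X i s = 0 := by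
  classical
  let K := FractionRing P2
  let φ : P2 →ₐ[ℂ] K := IsScalarTower.toAlgHom ℂ P2 K
  let ψ : K →ₐ[ℂ] K' := IsScalarTower.toAlgHom ℂ K K'
  have hinj : Function.Injective φ := FaithfulSMul.algebraMap_injective P2 K
  have hfd : FiniteDimensional K K' := Module.finite_of_finrank_pos hodd.pos
  have : CharZero K := charZero_of_injective_algebraMap (algebraMap ℂ K).injective
  let tK : Fin 2 → K := φ ∘ X
  have hH := H_of_fibre D (ψ ∘ tK) x h0 hq h1 h2
  have hbl : ∀ i, bl (pm (D.H tK i)) (v5 x) (v5 x) = 0 := by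
    intro i
    have h3 := polar_sum (D.H (ψ ∘ tK) i) (v5 x)
    rw [hH i, mul_zero] at h3
    rw [← h3, bl]
    refine Finset.sum_congr rfl fun j _ => Finset.sum_congr rfl fun l _ => ?_
    have h4 : algebraMap K K' (pm (D.H tK i) j l) =
        polar (D.H (ψ ∘ tK) i) (Pi.single j 1) (Pi.single l 1) := by
      have h5 := map_polar ψ D tK i (Pi.single j 1) (Pi.single l 1)
      have h6 : ∀ j : Fin 5, (ψ ∘ (Pi.single j 1 : Fin 5 → K)) = Pi.single j 1 := by
        intro j
        funext m
        rw [Function.comp_apply]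
        by_cases h : m = j
        · subst h
          rw [Pi.single_eq_same, Pi.single_eq_same, map_one]
        · rw [Pi.single_eq_of_ne h, Pi.single_eq_of_ne h, map_zero]
      rw [h6, h6] at h5
      exact h5
    rw [h4]
  obtain ⟨s, hs, hs0, hs1⟩ := odd_point hodd (pm (D.H tK 0)) (pm (D.H tK 1)) (pm_symm _)
    (pm_symm _) (v5 x) (v5_ne D x hq) (hbl 0) (hbl 1)
  have hsH : ∀ i, D.H tK i s = 0 := by
    have h3 : ∀ i, bl (pm (D.H tK i)) s s = 0 := by
      intro i
      fin_cases i
      · exact hs0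
      · exact hs1
    intro i
    have h4 := polar_sum (D.H tK i) s
    have h5 := h3 i
    have h6 : (2 : K) * D.H tK i s = 0 := h4.symm.trans h5
    exact (mul_eq_zero.1 h6).resolve_left two_ne_zero
  -- common denominator
  obtain ⟨b, hb⟩ := IsLocalization.exist_integer_multiples (nonZeroDivisors P2) Finset.univ s
  choose! v hv using hb
  have hv' : ∀ i, φ (v i) = φ b * s i := by
    intro i
    have h3 := hv i (Finset.mem_univ i)
    change algebraMap P2 K (v i) = algebraMap P2 K b * s i
    rw [h3, Algebra.smul_def]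
  have hb0 : φ (b : P2) ≠ 0 := by
    intro h
    exact nonZeroDivisors.coe_ne_zero b (hinj (h.trans (map_zero φ).symm))
  refine ⟨v, ?_, ?_⟩
  · intro h
    apply hs
    funext i
    have h3 := hv' i
    rw [h] at h3
    rw [Pi.zero_apply, map_zero] at h3
    exact (mul_eq_zero.1 h3.symm).resolve_left hb0
  · intro i
    apply hinj
    rw [map_zero, map_H]
    have h3 : φ ∘ v = φ (b : P2) • s := by
      funext j
      exact hv' j
    rw [h3, QuadraticMap.map_smul]
    have h4 : D.H (φ ∘ X) i s = 0 := hsH i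
    rw [h4, smul_zero]

end Pool.Agent.Helper15.SD
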